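import Pool.Agent.Helper12.XG.St

/-!
# Project XG, module KIN: mass of the kernel
-/

set_option autoImplicit false

namespace Pool.Agent.Helper21.XG

open Finset Polynomial Pool.Agent.Helper12.XG Pool.Agent.Helper14.GS MeasureTheory

theorem hKIN : StKIN := by
  intro q hq
  have hf : Continuous (fun x : ℝ => x ^ (2 * q) * (1 - x) ^ (2 * q)) := by fun_prop
  have h0 : ∀ x : ℝ, 0 ≤ x ^ (2 * q) * (1 - x) ^ (2 * q) := fun x =>
    mul_nonneg ((even_two_mul q).pow_nonneg x) ((even_two_mul q).pow_nonneg (1 - x))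
  have h1 : ∫ x in (1 / 4 : ℝ)..(3 / 4), x ^ (2 * q) * (1 - x) ^ (2 * q) ≤
      ∫ x in (0 : ℝ)..1, x ^ (2 * q) * (1 - x) ^ (2 * q) :=
    intervalIntegral.integral_mono_interval (by norm_num) (by norm_num) (by norm_num)
      (Filter.Eventually.of_forall h0) (hf.intervalIntegrable _ _)
  have h2 : ∫ _ in (1 / 4 : ℝ)..(3 / 4), ((9 / 256 : ℝ) ^ q) ≤
      ∫ x in (1 / 4 : ℝ)..(3 / 4), x ^ (2 * q) * (1 - x) ^ (2 * q) := by
    refine intervalIntegral.integral_mono_on (by norm_num) (continuous_const.intervalIntegrable _ _)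
      (hf.intervalIntegrable _ _) ?_
    intro x hx
    have h3 : (3 / 16 : ℝ) ≤ x * (1 - x) := by nlinarith [hx.1, hx.2]
    have h4 : x ^ (2 * q) * (1 - x) ^ (2 * q) = ((x * (1 - x)) ^ 2) ^ q := by
      rw [← mul_pow, pow_mul]
    rw [h4]
    refine pow_le_pow_left₀ (by norm_num) ?_ q
    have h5 : (3 / 16 : ℝ) ^ 2 ≤ (x * (1 - x)) ^ 2 := pow_le_pow_left₀ (by norm_num) h3 2
    calc (9 / 256 : ℝ) = (3 / 16 : ℝ) ^ 2 := by norm_num
      _ ≤ _ := h5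
  rw [intervalIntegral.integral_const, smul_eq_mul] at h2
  have h6 : (2 : ℝ) ≤ (9 / 4 : ℝ) ^ q := by
    calc (2 : ℝ) ≤ (9 / 4 : ℝ) ^ 1 := by norm_num
      _ ≤ (9 / 4 : ℝ) ^ q := pow_le_pow_right₀ (by norm_num) hq
  have h7 : (9 / 256 : ℝ) ^ q = (9 / 4 : ℝ) ^ q * (1 / 64 : ℝ) ^ q := by
    rw [← mul_pow]; norm_num
  have h8 : 0 < (1 / 64 : ℝ) ^ q := by positivity
  have h9 : (1 / 64 : ℝ) ^ q ≤ (3 / 4 - 1 / 4) * (9 / 256 : ℝ) ^ q := by
    rw [h7]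
    nlinarith
  linarith

end Pool.Agent.Helper21.XG
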